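import Pool.Agent.K7.H3.ZR.Final
import Pool.Agent.K7.H3.ZB.Bertini

/-!
# Zero-cycles which are equivalent to sums of few points and cycles on a curve

Let `X` be an irreducible projective surface over an algebraically closed field `k` of characteristic
zero, and `B(X)` the group of zero-cycles on `X` modulo rational equivalence. Let `D_1, ..., D_s` be
irreducible curves on `X`, and let `c_1, ..., c_n` and `d_1, ..., d_m` be signs (`1` or `-1`).

**Theorem.** Suppose that there is an irreducible closed subset `Z` of `X ^ n` of dimension larger than
`n + m` such that, for each point `z` of `Z`, the cycle `c_1 z_1 + ... + c_n z_n` is rationally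
equivalent to the sum of a cycle `d_1 y_1 + ... + d_m y_m`, with points `y_1, ..., y_m` of `X`, and of a
cycle which is supported on the curves `D_1, ..., D_s`. Then `B(X)` is finite-dimensional.

It is not assumed that the points `y_j` and the cycles on the curves depend on `z` in any algebraic
way. The cycles `d_1 y_1 + ... + d_m y_m`, together with the cycles on a curve, are the analogue of the
step `S_m` of the filtration which O'Grady defined for K3 surfaces; there the set of the cycles of degree
`n` whose classes are in `S_m` has dimension `n + m`, by Mumford's theorem on holomorphic two-forms. If
`B(X)` is infinite-dimensional, then the theorem gives the same bound `n + m` for each surface, without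
assumptions on forms, for arbitrary curves and signs; the bound is attained by `m` arbitrary points and
`n - m` points on a curve. For `Z = X ^ n` it says: if, for one `m < n`, each sum of `n` points is
equivalent to the sum of `m` points and of a cycle on a fixed curve, then `B(X)` is finite-dimensional;
for `n = 1` and `m = 0` this is the argument of Bloch.

The proof uses an irreducible plane section `C` of `X`, which exists by the theorem of Bertini. It is
proved in `Pool/Agent/K7/H3/ZB/Bertini.lean` (`exists_irreducible_section`): by Matsusaka's lemma, almost
all planes of a pencil give irreducible sections over the field of rational functions in one parameter, and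
by the theorem of Bertini and Noether on the specialisations of absolutely irreducible polynomials, almost
all values of the parameter give irreducible curves.

Proof. Let `q` be the dimension of `Z`. There are disjoint sets `L` and `S` of indices with
`|S| ≥ q - n > m` such that, for one point `u` of `X ^ L` and all points `a` of `X ^ S`, there is a point
of `Z` with the coordinates `u` in `L`, `a` in `S`, and all other coordinates on `C`
(`exists_family_point` in `Pool/Agent/K7/H3/ZN/Family.lean`). So the signed sum of `|S|` arbitrary points
is equivalent to a signed sum of `m` points, up to a constant and to cycles on `C` and the `D_i`. One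
applies this twice to a difference of two effective cycles of the same degree `N`, the second time with
the opposite signs; then the constants cancel, and one gets a difference of two effective cycles of
degree `N - |S| + m`, as long as `N ≥ |S|` (`reduce_pairs` in `Pool/Agent/K7/H3/ZR/Reduce.lean`). So
all cycles of degree zero are differences of effective cycles of degree less than `|S|`, up to cycles on
`C` and the `D_i`. Since the curves `D_i` meet `C`, the cycles of degree zero on the union of these
curves are bounded by the theorem of Riemann (`finite_of_genMul` in
`Pool/Agent/K7/H3/ZR/Curves.lean`).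
-/

set_option autoImplicit false

open MvPolynomial FF Pool.Agent.K7.H3.ZC
open scoped LinearAlgebra.Projectivization

namespace Pool.Agent.Results.MP_7ebcb6_ag.FewPoints

/-- **Cycles which are equivalent to signed sums of few points.** Let `X` be an irreducible closed
surface in the projective space of dimension `r` over `k`, and let `D a` be irreducible curves on `X`. Let
`Z` be an irreducible closed subset of `X ^ n` of dimension `q > n + m` such that, for each point `z` of
`Z`, there are points `y_1, ..., y_m` of `X` and a cycle `E` supported on the curves `D a` such that
`c_1 z_1 + ... + c_n z_n` is rationally equivalent to `d_1 y_1 + ... + d_m y_m + E`, where the `c_i` and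
the `d_j` are given signs. Then the group of the classes of zero-cycles on `X` is
finite-dimensional. -/
theorem result {k : Type} [Field k] [IsAlgClosed k] [CharZero k] {r : ℕ}
    {X : Set (ℙ k (Fin (r + 1) → k))}
    (surface : IsVariety k {z : Fin 1 → ℙ k (Fin (r + 1) → k) | z 0 ∈ X} 2)
    {s : ℕ} {D : Fin s → Set (ℙ k (Fin (r + 1) → k))}
    (curves : ∀ a, IsVariety k {z : Fin 1 → ℙ k (Fin (r + 1) → k) | z 0 ∈ D a} 1)
    (inside : ∀ a, D a ⊆ X)
    {n m q : ℕ} {Z : Set (Fin n → ℙ k (Fin (r + 1) → k))} (closed : IsVariety k Z q)
    (subset : ∀ z ∈ Z, ∀ i, z i ∈ X) (large : n + m < q)
    {c : Fin n → ℤ} (signs : ∀ i, c i = 1 ∨ c i = -1)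
    {d : Fin m → ℤ} (signs' : ∀ j, d j = 1 ∨ d j = -1)
    (few : ∀ z ∈ Z, ∃ (y : Fin m → ℙ k (Fin (r + 1) → k)) (E : ℙ k (Fin (r + 1) → k) →₀ ℤ),
      (∀ j, y j ∈ X) ∧ (∀ p ∈ E.support, ∃ a, p ∈ D a) ∧
        ∑ i, Finsupp.single (z i) (c i) - ∑ j, Finsupp.single (y j) (d j) - E ∈ ratEquiv X) :
    IsFiniteDimensional X := by
  obtain ⟨h, hh, curve⟩ := Pool.Agent.K7.H3.ZB.exists_irreducible_section surface
  exact Pool.Agent.K7.H3.ZR.surface_rank surface Nat.one_pos hh curve curves inside closed subset
    signs signs' large few

end Pool.Agent.Results.MP_7ebcb6_ag.FewPoints
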