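import Pool.Agent.K7.H3.ZR.Final
import Pool.Agent.K7.H3.ZB.Bertini

/-!
# Families of orbits of large dimension, modulo curves

Let `X` be an irreducible projective surface over an algebraically closed field `k` of characteristic
zero, and `B(X)` the group of zero-cycles on `X` modulo rational equivalence. Let `D_1, ..., D_s` be
irreducible curves on `X`. The orbit of a point `z` of `X ^ n` is the set of all points `w` of `X ^ n`
such that the cycle `(z_1 + ... + z_n) - (w_1 + ... + w_n)` is rationally equivalent on `X` to a cycle
which is supported on the curves `D_1, ..., D_s`. For `s = 0` the orbits are the fibres of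
`γ : S^n(X) → B(X)`.

**Theorem.** Suppose that, for one number `n`, there is an irreducible closed subset `Z` of `X ^ n` of
dimension `d` such that the orbits of all points of `Z` have dimension at least `f`, and `d + f > 2 n`.
Then `B(X)` is finite-dimensional.

In other words: if `B(X)` is infinite-dimensional, then, for all `n` and `f` and all curves, the points of
`X ^ n` whose orbits have dimension at least `f` do not fill a closed subset of dimension larger than
`2 n - f`. In particular (let `Z` be a component of an orbit, and `f = d`) all orbits have dimension at
most `n`, and (`f = 1`, `d = 2 n`) the general orbits have dimension zero. So `d_n = 2 n` for all `n`, if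
`B(X)` is infinite-dimensional. The case `n = 1` is the theorem of Bloch: `B(X)` is
finite-dimensional if its classes are supported on a curve.

The proof uses an irreducible plane section `C` of `X`, which exists by the theorem of Bertini. It is
proved in `Pool/Agent/K7/H3/ZB/Bertini.lean` (`exists_irreducible_section`): by Matsusaka's lemma, almost
all planes of a pencil give irreducible sections over the field of rational functions in one parameter, and
by the theorem of Bertini and Noether on the specialisations of absolutely irreducible polynomials, almost
all values of the parameter give irreducible curves.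

Proof. For a closed irreducible subset of `X ^ n` with the generic point `ξ = (ξ_1, ..., ξ_n)`, and a set
`S` of indices, let `t(S)` be the transcendence degree of the field generated by the `ξ_i` with `i` in
`S`. This is a polymatroid with `t({i}) ≤ 2`.

1. Let `B(X)` be infinite-dimensional. Let `W` be an irreducible closed subset of `X ^ n` on which the
cycles are all equivalent. Then `t({1, ..., n})` is at most the number of the `i` for which `ξ_i` is not
constant: otherwise, let `I` be a largest set with `t(I) = 2 |I|`, then each cycle
of `|I|` points is equivalent to a cycle of `|I|` points one of which is on `C`, so that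
`B(X)` is finite-dimensional by the theorem of Riemann on `C` (`move_core` in
`Pool/Agent/K7/H3/ZN/Core.lean`). Applied to the subvarieties of `W` over the points of `X ^ B`, this
gives `t({1, ..., n}) ≤ t(B) + n - |B|` for all `B` (`rank_bound`).

2. By the theorem of Rado and Hall for polymatroids there are then `f ≤ dim W` indices
such that, for each set `S` of them, `|S| ≤ t(S)`, and one can specialise `ξ` in such a way that these
`f` coordinates come to the curve `C` (`exists_on_hyp`).

3. There are disjoint sets `L` and `S` of indices with `|S| ≥ d - n` such that, for one point `u` of
`X ^ L` and all points `a` of `X ^ S`, there is a point of `Z` with the coordinates `u` in `L`, `a` in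
`S`, and all other coordinates on `C` (`exists_family_point` in `Pool/Agent/K7/H3/ZN/Family.lean`). By 2,
applied to its orbit, `a + u` is equivalent to the sum of `n - f < |S|` points and of a cycle on `C`. So each
effective cycle is equivalent to the sum of less than `|S|` points, a multiple of `u`, and a cycle on
`C`. Since the curves `D_i` meet `C`, the cycles of degree zero on the union of `C` and the `D_i` are
bounded by the theorem of Riemann (`finite_of_genMul` in `Pool/Agent/K7/H3/ZR/Curves.lean`).
-/

set_option autoImplicit false

open MvPolynomial FF Pool.Agent.K7.H3.ZC
open scoped LinearAlgebra.Projectivization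

namespace Pool.Agent.Results.MP_7ebcb6_ag.OrbitFamilies

/-- **Families of large orbits.** Let `X` be an irreducible closed surface in the projective space of
dimension `r` over `k`, and let `D a` be irreducible curves on `X`. Let `Z` be an irreducible closed subset
of `X ^ n` of dimension `d` such that, for each point `z` of `Z`, there is an irreducible closed subset `W`
of `X ^ n` of dimension at least `f`, with `d + f > 2 n`, the cycles of whose points are all rationally
equivalent to the cycle of `z` up to cycles `E` supported on the curves `D a`. Then the group of the
classes of zero-cycles on `X` is finite-dimensional. -/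
theorem result {k : Type} [Field k] [IsAlgClosed k] [CharZero k] {r : ℕ}
    {X : Set (ℙ k (Fin (r + 1) → k))}
    (surface : IsVariety k {z : Fin 1 → ℙ k (Fin (r + 1) → k) | z 0 ∈ X} 2)
    {s : ℕ} {D : Fin s → Set (ℙ k (Fin (r + 1) → k))}
    (curves : ∀ a, IsVariety k {z : Fin 1 → ℙ k (Fin (r + 1) → k) | z 0 ∈ D a} 1)
    (inside : ∀ a, D a ⊆ X)
    {n d f : ℕ} {Z : Set (Fin n → ℙ k (Fin (r + 1) → k))} (closed : IsVariety k Z d)
    (subset : ∀ z ∈ Z, ∀ i, z i ∈ X) (large : 2 * n < d + f)
    (orbits : ∀ z ∈ Z, ∃ (W : Set (Fin n → ℙ k (Fin (r + 1) → k))) (m : ℕ), IsVariety k W m ∧
      f ≤ m ∧ (∀ w ∈ W, ∀ i, w i ∈ X) ∧ ∀ w ∈ W, ∃ E : ℙ k (Fin (r + 1) → k) →₀ ℤ,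
        (∀ p ∈ E.support, ∃ a, p ∈ D a) ∧ cycle z - cycle w - E ∈ ratEquiv X) :
    IsFiniteDimensional X := by
  obtain ⟨h, hh, curve⟩ := Pool.Agent.K7.H3.ZB.exists_irreducible_section surface
  exact Pool.Agent.K7.H3.ZR.surface_families surface Nat.one_pos hh curve curves inside closed subset
    large orbits

end Pool.Agent.Results.MP_7ebcb6_ag.OrbitFamilies
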