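import Pool.Agent.K7.H3.ZR.Final

/-!
# Fibres of differences of effective cycles, and a curve on the surface

Let `X` be an irreducible projective surface over an algebraically closed field `k` of characteristic
zero, `B(X)` the group of zero-cycles on `X` modulo rational equivalence, and `h` a form of positive
degree whose zeros on `X` are an irreducible curve `C`. (By Bertini's theorem, there are such forms, of
each degree, on each irreducible projective surface; for degree one see `exists_irreducible_section` in
`Pool/Agent/K7/H3/ZB/Bertini.lean`.) Let `D_1, ..., D_s` be irreducible curves on `X`,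
and let `B(D)` be the group of the classes of the cycles which are supported on these curves.

**Theorem.** Let `W` be an irreducible closed subset of `X ^ N` of dimension `m`, and let `c_i = 1` or
`c_i = -1` for `i = 1, ..., N`, such that the class of the cycle `c_1 w_1 + ... + c_N w_N` in
`B(X) / B(D)` is the same for all points `w` of `W`. Suppose that no point of `W` has `m` coordinates
on `C`; for instance, let `m > N`. Then `B(X)` is finite-dimensional.

In other words, if `B(X)` is infinite-dimensional, then the dimension of each component of each fibre of
each map `S^p(X) × S^q(X) → B(X) / B(D)`, `(a, b) ↦ a - b`, is a number `m ≤ p + q`, and the component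
contains a point `(a, b)` such that `m` of the `p + q` points of `a` and `b` are on `C`. For `q = 0`,
`s = 0` and `X` a K3 surface this is used by Voisin in her work on the conjectures of O'Grady and
Huybrechts, where `C` is a rational curve; there it follows from Mumford's theorem on holomorphic
two-forms. Here nothing is assumed about forms, and the signs are arbitrary. For a surface with `p_g = 0`
it says that Bloch's conjecture is true as soon as there is one such `W` which does not meet the sets of
the `w` with `m` coordinates on `C`.

Proof. Let `B(X)` be infinite-dimensional. For a closed irreducible subset of `X ^ N` with the generic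
point `ξ`, and a set `S` of indices, let `t(S)` be the transcendence degree of the field generated by
the `ξ_i` with `i` in `S`.

1. If the class of `c_1 w_1 + ... + c_N w_N` is constant, then `t({1, ..., N})` is at most the number of
the `i` such that `ξ_i` is not constant. Otherwise, let `I` be a largest set with `t(I) = 2 |I|`, and
`J` its complement; then `t(J) < t({1, ..., N})`, and there is an element `i` of `I` such that `ξ_i` is not
algebraic over the field of the `ξ_j` with `j` in `J`. Let `V` be the set of the classes of the sums of
`c_j x_j` with `x_j` in `X` and `j` in `I - {i}`. One can move the `i`-th point to `C`, so that, modulo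
cycles on `C` and the `D_j`, `V + c_i x` is contained in `V` for all points `x` of `X`
(`Pool/Agent/K7/H3/ZN/Core.lean`, `move_core`, `move_all`). So `c_i (x_1 + ... + x_n)` is in `V - V` for all
`n`, and `B(X)` is finite-dimensional by the theorem of Riemann on the curves
(`Pool/Agent/K7/H3/ZR/Curves.lean`, `finite_of_genMul`).

2. Applied to the subvarieties of `W` over the points of `X ^ B`, this gives
`t({1, ..., N}) ≤ t(B) + N - |B|` for all `B` (`rank_bound`). By the theorem of Rado and Hall for
polymatroids there are `m` indices such that `|S| ≤ t(S)` for each set `S` of them, and one can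
specialise `ξ` in such a way that these coordinates come to `C` (`exists_on_hyp`).
-/

set_option autoImplicit false

open MvPolynomial FF Pool.Agent.K7.H3.ZC
open scoped LinearAlgebra.Projectivization

namespace Pool.Agent.Results.MP_7ebcb6_ag.SignedOrbits

/-- **Signed orbits.** Let `X` be an irreducible closed surface in the projective space of dimension
`r` over `k`, and `h` a form of positive degree whose zeros on `X` are an irreducible curve. Let `D a` be
irreducible curves on `X`. Let `W` be an irreducible closed subset of `X ^ N` of dimension `m` such that
the classes of the cycles `c_1 w_1 + ... + c_N w_N`, `c_i = ± 1`, for the points `w` of `W` differ by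
cycles supported on the curves `D a`, and such that no point of `W` has `m` coordinates on the zeros of
`h`. Then the group of the classes of zero-cycles on `X` is finite-dimensional. -/
theorem result {k : Type} [Field k] [IsAlgClosed k] [CharZero k] {r : ℕ}
    {X : Set (ℙ k (Fin (r + 1) → k))}
    (surface : IsVariety k {z : Fin 1 → ℙ k (Fin (r + 1) → k) | z 0 ∈ X} 2)
    {h : MvPolynomial (Fin (r + 1)) k} {e : ℕ} (he : 0 < e) (hh : h.IsHomogeneous e)
    (curve : IsVariety k {z : Fin 1 → ℙ k (Fin (r + 1) → k) | z 0 ∈ X ∧ aeval (z 0).rep h = 0} 1)
    {s : ℕ} {D : Fin s → Set (ℙ k (Fin (r + 1) → k))}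
    (curves : ∀ a, IsVariety k {z : Fin 1 → ℙ k (Fin (r + 1) → k) | z 0 ∈ D a} 1)
    (inside : ∀ a, D a ⊆ X)
    {N m : ℕ} {W : Set (Fin N → ℙ k (Fin (r + 1) → k))} (closed : IsVariety k W m)
    (subset : ∀ w ∈ W, ∀ i, w i ∈ X) {c : Fin N → ℤ} (signs : ∀ i, c i = 1 ∨ c i = -1)
    (constant : ∀ w ∈ W, ∀ w' ∈ W, ∃ E : ℙ k (Fin (r + 1) → k) →₀ ℤ,
      (∀ p ∈ E.support, ∃ a, p ∈ D a) ∧
        ∑ i, Finsupp.single (w i) (c i) - ∑ i, Finsupp.single (w' i) (c i) - E ∈ ratEquiv X)
    (avoid : ∀ w ∈ W, ∀ A : Finset (Fin N), A.card = m → ∃ i ∈ A, aeval (w i).rep h ≠ 0) :
    IsFiniteDimensional X :=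
  Pool.Agent.K7.H3.ZR.surface_signs surface he hh curve curves inside closed subset signs constant
    avoid

end Pool.Agent.Results.MP_7ebcb6_ag.SignedOrbits
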