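import Pool.Agent.K7.H3.ZR.WFinal
import Pool.Agent.K7.H3.ZB.Bertini

/-!
# Weighted sums of points

Let `X` be an irreducible projective surface over an algebraically closed field `k` of characteristic
zero, and `B(X)` the group of zero-cycles on `X` modulo rational equivalence. Let `D_1, ..., D_s` be
irreducible curves on `X`, and let `c_1, ..., c_n` be integers which are not zero, and `d_1, ..., d_m`
arbitrary integers.

**Theorem.** Suppose that there is an irreducible closed subset `W` of `X ^ (n + m)` such that the classes
of the cycles `c_1 z_1 + ... + c_n z_n + d_1 y_1 + ... + d_m y_m` modulo rational equivalence and cycles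
on the curves `D_i` are the same for all points `(z, y)` of `W`, and that the projection of `W` to `X ^ n`
contains an irreducible closed subset `Z` of dimension larger than `n + m`. Then there are a positive
integer `a` and a number `M` such that, for each zero-cycle `P` of degree zero on `X`, the multiple `a P` is
rationally equivalent to the difference of two effective cycles of degree `M`.

Since the group `B_0(X)` of the classes of degree zero is divisible (any two points of `X` lie on a curve,
and the Jacobian of a curve is divisible), the conclusion says that `B(X)` is finite-dimensional.

So, if `B(X)` is infinite-dimensional, then, for arbitrary weights, the points `z` of `X ^ n` such that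
`c_1 z_1 + ... + c_n z_n` is equivalent to a constant minus a cycle `d_1 y_1 + ... + d_m y_m` (and up to
cycles on fixed curves) do not fill an algebraic family of dimension larger than `n + m`. If the `-d_j`
are among the `c_i`, then the bound is attained, by `m` arbitrary points and `n - m` points on a curve.
The theorem applies to zero-cycles with rational coefficients, after clearing denominators. For weights
`1` and `-1` see `FewPoints`, where the points `y` need not depend on `z` in an algebraic way.

The proof uses an irreducible plane section `C` of `X`, which exists by the theorem of Bertini. It is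
proved in `Pool/Agent/K7/H3/ZB/Bertini.lean` (`exists_irreducible_section`): by Matsusaka's lemma, almost
all planes of a pencil give irreducible sections over the field of rational functions in one parameter, and
by the theorem of Bertini and Noether on the specialisations of absolutely irreducible polynomials, almost
all values of the parameter give irreducible curves.

Proof. Let `q` be the dimension of `Z`.

1. A rank argument gives disjoint sets `L` and `S` of the first `n` indices with `|S| ≥ q - n > m` and,
for one point `u` of `X ^ L` and all points `a` of `X ^ S`, a point of `W` with the coordinates `u` in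
`L`, `a` in `S`, and whose other coordinates among the first `n` are on `C` (`exists_family_point'` in
`Pool/Agent/K7/H3/ZR/Family.lean`).

2. With an ultrapower of `k` one gets an irreducible closed subset `W'` of `W`, all of whose points have
the coordinates `u` in `L` and points of `C` outside of `L` and `S`, and in which the coordinates in `S` of
the generic point are independent generic points of `X` (`exists_generic` in
`Pool/Agent/K7/H3/ZR/Gen.lean`).

3. The last `m` coordinates generate a field of transcendence degree at most `2 m < 2 |S|`. So, for one
index `i` in `S`, the coordinates of the `i`-th point are not all algebraic over this field. One keeps the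
last `m` points and moves the `i`-th point to `C`: for all `a` in `X ^ S` there is a point `v` of `X ^ S`
such that `v_i` is on `C` and the sums of the `c_j a_j` and of the `c_j v_j` for `j` in `S` are equivalent
modulo cycles on curves (`move_core_of` in `Pool/Agent/K7/H3/ZR/Weights.lean`).

4. In a cycle `c_i P` plus the sum of the `c_j y_j` for `j ≠ i` in `S`, with an effective cycle `P` of
arbitrary degree, one can by 3 move the points of `P` to the curve `C` one after the other, changing only
the points `y_j` (`genMul_of_move` in `Pool/Agent/K7/H3/ZN/Core.lean`).

5. The cycles of degree zero on the union of `C` and the `D_i` are bounded by the theorem of Riemann, since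
the curves `D_i` meet `C` (`finMul_of_curves` in `Pool/Agent/K7/H3/ZR/WFinal.lean`).
-/

set_option autoImplicit false

open MvPolynomial FF Pool.Agent.K7.H3.ZC
open scoped LinearAlgebra.Projectivization

namespace Pool.Agent.Results.MP_7ebcb6_ag.WeightedSums

/-- **Weighted sums.** Let `X` be an irreducible closed surface in the projective space of dimension `r`
over `k`, and let `D a` be irreducible curves on `X`. Let `W` be an irreducible closed subset of
`X ^ (n + m)` and `Z` one of `X ^ n` such that each point of `Z` is the projection of a point of `W`, and
such that the dimension `q` of `Z` is larger than `n + m`. Let `c` be integers, the first `n` of which are not zero, such that the class of the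
cycle `c_1 w_1 + ... + c_(n+m) w_(n+m)` modulo rational equivalence and cycles supported on the curves
`D a` is the same for all points `w` of `W`. Then there are an integer `a ≠ 0` and a number `M` such that
`a P` is rationally equivalent to a difference of two sums of `M` points of `X` for each zero-cycle `P` of
degree zero on `X`. -/
theorem result {k : Type} [Field k] [IsAlgClosed k] [CharZero k] {r : ℕ}
    {X : Set (ℙ k (Fin (r + 1) → k))}
    (surface : IsVariety k {z : Fin 1 → ℙ k (Fin (r + 1) → k) | z 0 ∈ X} 2)
    {s : ℕ} {D : Fin s → Set (ℙ k (Fin (r + 1) → k))}
    (curves : ∀ a, IsVariety k {z : Fin 1 → ℙ k (Fin (r + 1) → k) | z 0 ∈ D a} 1)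
    (inside : ∀ a, D a ⊆ X)
    {n m q l : ℕ} {Z : Set (Fin n → ℙ k (Fin (r + 1) → k))} (closed : IsVariety k Z q)
    (large : n + m < q) {W : Set (Fin (n + m) → ℙ k (Fin (r + 1) → k))} (closed' : IsVariety k W l)
    (subset : ∀ w ∈ W, ∀ i, w i ∈ X)
    (onto : ∀ z ∈ Z, ∃ y : Fin m → ℙ k (Fin (r + 1) → k), Fin.append z y ∈ W)
    {c : Fin (n + m) → ℤ} (nonzero : ∀ i : Fin n, c (Fin.castAdd m i) ≠ 0)
    (constant : ∀ w ∈ W, ∀ w' ∈ W, ∃ E : ℙ k (Fin (r + 1) → k) →₀ ℤ,
      (∀ p ∈ E.support, ∃ a, p ∈ D a) ∧
        ∑ i, Finsupp.single (w i) (c i) - ∑ i, Finsupp.single (w' i) (c i) - E ∈ ratEquiv X) :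
    ∃ (a : ℤ) (M : ℕ), a ≠ 0 ∧ ∀ P : ℙ k (Fin (r + 1) → k) →₀ ℤ, (∀ p ∈ P.support, p ∈ X) →
      (P.sum fun _ j => j) = 0 → ∃ x y : Fin M → ℙ k (Fin (r + 1) → k),
        (∀ i, x i ∈ X) ∧ (∀ i, y i ∈ X) ∧ a • P - (cycle x - cycle y) ∈ ratEquiv X := by
  obtain ⟨h, hh, curve⟩ := Pool.Agent.K7.H3.ZB.exists_irreducible_section surface
  obtain ⟨i, M, hM⟩ := Pool.Agent.K7.H3.ZR.surface_weighted surface Nat.one_pos hh curve curves inside
    closed large closed' subset onto constant
  exact ⟨_, M, nonzero i, hM⟩

end Pool.Agent.Results.MP_7ebcb6_ag.WeightedSums
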